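import Pool.Agent.H507R3.HopfVar

/-!
# A counterexample to a variant of the Hopf lemma, flat on the axis

For every `n = m + 1 ≥ 2` the functions `u = t |y|² + e(t)` and `v = t (|y|² + |y|⁴) / 2 + e(t / 3)`
with `e(t) = exp (-20 / t)` for `t > 0`, `e(t) = 0` for `t ≤ 0`, satisfy the conditions 1-4 of the
problem and `u_t(0,0) = 0`, and `v < u` in `Ω`.  On the axis `y = 0` both vanish to infinite order.
-/

set_option autoImplicit false

namespace Pool.Agent.Results.MP_a60953_an.InfiniteOrderCounterexample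

open Set

/-- The space `ℝ^m` of the variable `y`; the points of `ℝ^n`, `n = m + 1`, are the pairs `(t, y)`. -/
abbrev Y (m : ℕ) : Type := EuclideanSpace ℝ (Fin m)

/-- `w_t`, the derivative in the variable `t`. -/
noncomputable def dt {m : ℕ} (w : ℝ × Y m → ℝ) (p : ℝ × Y m) : ℝ :=
  deriv (fun s : ℝ => w (s, p.2)) p.1

/-- `w_{y_j}`, the derivative in the variable `y_j`. -/
noncomputable def dy {m : ℕ} (j : Fin m) (w : ℝ × Y m → ℝ) (p : ℝ × Y m) : ℝ :=
  deriv (fun s : ℝ => w (p.1, p.2 + s • EuclideanSpace.single j (1 : ℝ))) 0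

/-- The Laplacian in all `n = m + 1` variables `(t, y)`. -/
noncomputable def lap {m : ℕ} (w : ℝ × Y m → ℝ) (p : ℝ × Y m) : ℝ :=
  dt (dt w) p + ∑ j, dy j (dy j w) p

/-- The domain `Ω = {(t, y) : |y| < 1, 0 < t < 1}`. -/
def Om (m : ℕ) : Set (ℝ × Y m) := {p | ‖p.2‖ < 1 ∧ 0 < p.1 ∧ p.1 < 1}

/-- The hypotheses of the problem on `u` and `v` (with smoothness even on all of `ℝ^n`). -/
structure Admissible (m : ℕ) (u v : ℝ × Y m → ℝ) : Prop where
  smooth_u : ContDiff ℝ (⊤ : ℕ∞) u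
  smooth_v : ContDiff ℝ (⊤ : ℕ∞) v
  le : ∀ p ∈ Om m, v p ≤ u p
  u_pos : ∀ p ∈ Om m, 0 < u p
  v_pos : ∀ p ∈ Om m, 0 < v p
  ut_pos : ∀ p ∈ Om m, 0 < dt u p
  u_zero : ∀ y : Y m, ‖y‖ < 1 → u (0, y) = 0
  comparison : ∀ (t s : ℝ) (y : Y m), 0 < t → t ≤ s → s < 1 → ‖y‖ < 1 →
    u (t, y) = v (s, y) → lap u (t, y) ≤ lap v (s, y)
  ut_zero : dt u (0, 0) = 0

/-- The function `f` of one variable vanishes to infinite order at `0`. -/
def InfiniteOrder (f : ℝ → ℝ) : Prop := ∀ k : ℕ, iteratedDeriv k f 0 = 0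

open Pool.Agent.H507R3.Hopf (mf mf_contDiff dt_mf lap_mf key_ineq)

lemma lap_eq {m : ℕ} (w : ℝ × Y m → ℝ) : lap w = Pool.Agent.H507R3.Hopf.lap w := rfl

lemma dt_eq {m : ℕ} (w : ℝ × Y m → ℝ) : dt w = Pool.Agent.H507R3.Hopf.dt w := rfl

/-- The flat function. -/
noncomputable def fl (c : ℝ) (t : ℝ) : ℝ := expNegInvGlue (t / c)

lemma fl_contDiff (c : ℝ) : ContDiff ℝ (⊤ : ℕ∞) (fl c) :=
  expNegInvGlue.contDiff.comp (contDiff_id.div_const c)

lemma fl_of_pos {c t : ℝ} (hc : 0 < c) (ht : 0 < t) : fl c t = Real.exp (-(c / t)) := by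
  have : 0 < t / c := by positivity
  rw [fl, expNegInvGlue, if_neg (not_le.mpr this), inv_div]

lemma fl_of_nonpos {c t : ℝ} (hc : 0 < c) (ht : t ≤ 0) : fl c t = 0 :=
  expNegInvGlue.zero_of_nonpos (div_nonpos_of_nonpos_of_nonneg ht hc.le)

lemma fl_deriv (c : ℝ) (t : ℝ) : HasDerivAt (fl c) (deriv (fl c) t) t :=
  ((fl_contDiff c).differentiable (by simp) t).hasDerivAt

lemma fl_deriv_two (c : ℝ) (t : ℝ) : HasDerivAt (deriv (fl c)) (deriv (deriv (fl c)) t) t := by
  have h : ContDiff ℝ (⊤ : ℕ∞) (deriv (fl c)) :=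
    ((contDiff_infty_iff_deriv (𝕜 := ℝ)).mp (fl_contDiff c)).2
  exact (h.differentiable (by simp) t).hasDerivAt

lemma fl_deriv_pos {c t : ℝ} (hc : 0 < c) (ht : 0 < t) :
    deriv (fl c) t = c / t ^ 2 * Real.exp (-(c / t)) := by
  have h1 : HasDerivAt (fun t : ℝ => -(c / t)) (c / t ^ 2) t := by
    have := ((hasDerivAt_inv ht.ne').const_mul c).neg
    refine this.congr_deriv ?_
    field_simp
  have h2 := h1.exp
  have h3 : fl c =ᶠ[nhds t] fun t => Real.exp (-(c / t)) := by
    filter_upwards [isOpen_Ioi.mem_nhds ht] with s hs using fl_of_pos hc hs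
  rw [h3.deriv_eq, h2.deriv]
  ring

lemma fl_deriv_two_pos {c t : ℝ} (hc : 0 < c) (ht : 0 < t) :
    deriv (deriv (fl c)) t = (c ^ 2 / t ^ 4 - 2 * c / t ^ 3) * Real.exp (-(c / t)) := by
  have h1 : HasDerivAt (fun t : ℝ => -(c / t)) (c / t ^ 2) t := by
    have := ((hasDerivAt_inv ht.ne').const_mul c).neg
    refine this.congr_deriv ?_
    field_simp
  have h2 := h1.exp
  have h4 : HasDerivAt (fun t : ℝ => c / t ^ 2) (-(2 * c / t ^ 3)) t := by
    have := ((hasDerivAt_pow 2 t).inv (pow_ne_zero 2 ht.ne')).const_mul c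
    refine this.congr_deriv ?_
    have := ht.ne'
    field_simp
    norm_num
    ring
  have h3 : deriv (fl c) =ᶠ[nhds t] fun t => c / t ^ 2 * Real.exp (-(c / t)) := by
    filter_upwards [isOpen_Ioi.mem_nhds ht] with s hs using fl_deriv_pos hc hs
  have h5 : deriv (fun t : ℝ => c / t ^ 2 * Real.exp (-(c / t))) t = _ := (h4.mul h2).deriv
  rw [h3.deriv_eq, h5]
  have := ht.ne'
  field_simp
  ring

lemma fl_bound {t : ℝ} (ht : 0 < t) : 8000 * Real.exp (-(20 / t)) ≤ t ^ 9 := by
  have h1 := Real.pow_div_factorial_le_exp (20 / t) (by positivity) 9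
  have h2 : Real.exp (-(20 / t)) = (Real.exp (20 / t))⁻¹ := Real.exp_neg _
  rw [h2]
  have h3 : (0 : ℝ) < (20 / t) ^ 9 / (Nat.factorial 9 : ℕ) := by positivity
  calc 8000 * (Real.exp (20 / t))⁻¹ ≤ 8000 * ((20 / t) ^ 9 / (Nat.factorial 9 : ℕ))⁻¹ := by
        gcongr
    _ = (8000 * 362880 / 20 ^ 9) * t ^ 9 := by
        have : (Nat.factorial 9 : ℕ) = 362880 := by decide
        rw [this]
        push_cast
        field_simp
    _ ≤ 1 * t ^ 9 := by
        apply mul_le_mul_of_nonneg_right _ (by positivity)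
        norm_num
    _ = t ^ 9 := one_mul _

lemma infiniteOrder_fl {c : ℝ} (hc : 0 < c) : InfiniteOrder (fl c) := by
  intro k
  have hcont : Continuous (iteratedDeriv k (fl c)) :=
    (fl_contDiff c).continuous_iteratedDeriv k (by exact_mod_cast le_top)
  have hz : ∀ t < 0, iteratedDeriv k (fl c) t = 0 := by
    intro t ht
    have h1 : fl c =ᶠ[nhds t] fun _ => 0 := by
      filter_upwards [isOpen_Iio.mem_nhds ht] with s hs using fl_of_nonpos hc (mem_Iio.mp hs).le
    rw [Filter.EventuallyEq.iteratedDeriv_eq k h1]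
    rw [iteratedDeriv_const]
    simp
  have h2 : Filter.Tendsto (iteratedDeriv k (fl c)) (nhdsWithin 0 (Iio 0))
      (nhds (iteratedDeriv k (fl c) 0)) := hcont.continuousAt.tendsto.mono_left nhdsWithin_le_nhds
  have h3 : Filter.Tendsto (iteratedDeriv k (fl c)) (nhdsWithin 0 (Iio 0)) (nhds 0) := by
    refine tendsto_const_nhds.congr' ?_
    filter_upwards [self_mem_nhdsWithin] with t ht using (hz t ht).symm
  exact tendsto_nhds_unique h2 h3

/-- **Counterexample.**  For every `n = m + 1 ≥ 2` there are `u, v` satisfying all hypotheses of the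
problem with `u > v` at every point of `Ω`; moreover the restrictions of `u` and `v` to the axis
`y = 0` vanish to infinite order at `t = 0`. -/
theorem result (m : ℕ) (hm : 1 ≤ m) :
    ∃ u v : ℝ × Y m → ℝ, Admissible m u v ∧ (∀ p ∈ Om m, v p < u p) ∧
      InfiniteOrder (fun t => u (t, 0)) ∧ InfiniteOrder (fun t => v (t, 0)) := by
  have hM : (1 : ℝ) ≤ m := by exact_mod_cast hm
  have h20 : (0 : ℝ) < 20 := by norm_num
  have h60 : (0 : ℝ) < 60 := by norm_num
  have hlt : ∀ p ∈ Om m, mf (1 / 2) (1 / 2) (fl 60) p < mf (m := m) 1 0 (fl 20) p := by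
    rintro ⟨t, y⟩ ⟨h1, h2, h3⟩
    simp only [mf] at *
    have h4 : 0 ≤ ‖y‖ := norm_nonneg y
    have h5 : ‖y‖ ^ 4 ≤ ‖y‖ ^ 2 := pow_le_pow_of_le_one h4 h1.le (by norm_num)
    have h6 : fl 60 t < fl 20 t := by
      rw [fl_of_pos h20 h2, fl_of_pos h60 h2]
      apply Real.exp_lt_exp.mpr
      have : 20 / t < 60 / t := div_lt_div_of_pos_right (by norm_num) h2
      linarith
    nlinarith [mul_nonneg h2.le (sub_nonneg.mpr h5)]
  refine ⟨mf 1 0 (fl 20), mf (1 / 2) (1 / 2) (fl 60), ⟨mf_contDiff _ _ (fl_contDiff 20),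
    mf_contDiff _ _ (fl_contDiff 60), fun p hp => (hlt p hp).le, ?_, ?_, ?_, ?_, ?_, ?_⟩, hlt,
    ?_, ?_⟩
  · rintro ⟨t, y⟩ ⟨h1, h2, h3⟩
    simp only [mf] at *
    rw [fl_of_pos h20 h2]
    positivity
  · rintro ⟨t, y⟩ ⟨h1, h2, h3⟩
    simp only [mf] at *
    rw [fl_of_pos h60 h2]
    positivity
  · rintro ⟨t, y⟩ ⟨h1, h2, h3⟩
    rw [dt_eq, dt_mf _ _ (fl_deriv 20)]
    simp only at *
    rw [fl_deriv_pos h20 h2]
    positivity
  · intro y _
    simp [mf, fl_of_nonpos h20 le_rfl]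
  · intro t s y ht hts hs hy heq
    have hs0 : 0 < s := lt_of_lt_of_le ht hts
    have ht1 : t < 1 := lt_of_le_of_lt hts hs
    rw [lap_eq, lap_eq, lap_mf _ _ (fl_deriv 20) (fl_deriv_two 20),
      lap_mf _ _ (fl_deriv 60) (fl_deriv_two 60)]
    simp only [mf] at *
    have hb := fl_bound ht
    have hexp : 0 < Real.exp (-(20 / t)) := Real.exp_pos _
    have hd2 : deriv (deriv (fl 20)) t ≤ 400 / t ^ 4 * Real.exp (-(20 / t)) := by
      rw [fl_deriv_two_pos h20 ht]
      apply mul_le_mul_of_nonneg_right _ hexp.le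
      have : 0 ≤ 2 * 20 / t ^ 3 := by positivity
      have e4 : (20 : ℝ) ^ 2 = 400 := by norm_num
      rw [e4]
      linarith
    have hd2' : 0 ≤ deriv (deriv (fl 20)) t := by
      rw [fl_deriv_two_pos h20 ht]
      apply mul_nonneg _ hexp.le
      have : (20 : ℝ) ^ 2 / t ^ 4 - 2 * 20 / t ^ 3 = (400 - 40 * t) / t ^ 4 := by
        field_simp
        ring
      rw [this]
      apply div_nonneg (by linarith) (by positivity)
    have hd2s : 0 ≤ deriv (deriv (fl 60)) s := by
      rw [fl_deriv_two_pos h60 hs0]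
      apply mul_nonneg _ (Real.exp_pos _).le
      have : (60 : ℝ) ^ 2 / s ^ 4 - 2 * 60 / s ^ 3 = (3600 - 120 * s) / s ^ 4 := by
        field_simp
        ring
      rw [this]
      apply div_nonneg (by linarith) (by positivity)
    have hf3 : fl 60 s = fl 20 (s / 3) := by
      rw [fl_of_pos h60 hs0, fl_of_pos h20 (by positivity)]
      congr 2
      field_simp
      norm_num
    have key := key_ineq (e := fl 20) (e'' := deriv (deriv (fl 20))) (M := m) (t := t) (s := s)
      (q := ‖y‖ ^ 2) hM ht hts hs (by positivity) ?_ ?_ ?_ ?_ ?_ ?_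
    · nlinarith
    · intro a b ha _ hb _ hab
      rw [fl_of_pos h20 ha, fl_of_pos h20 hb]
      apply Real.exp_lt_exp.mpr
      have : 20 / b < 20 / a := div_lt_div_of_pos_left (by norm_num) ha hab
      linarith
    · rw [fl_of_pos h20 ht]; exact hexp
    · intro h
      rw [fl_of_pos h20 ht, fl_of_pos h20 (by positivity)]
      have h7 : 27 / t ≤ 20 / (s / 3) := by
        rw [div_le_div_iff₀ ht (by positivity)]
        nlinarith
      have h8 : Real.exp (-(20 / (s / 3))) ≤ Real.exp (-(20 / t)) * Real.exp (-(7 / t)) := by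
        rw [← Real.exp_add]
        apply Real.exp_le_exp.mpr
        have : 27 / t = 20 / t + 7 / t := by ring
        linarith
      have h9 : Real.exp (-(7 / t)) ≤ 1 / 2 := by
        rw [Real.exp_neg]
        have h10 := Real.add_one_le_exp (7 / t)
        have h11 : 7 ≤ 7 / t := by
          rw [le_div_iff₀ ht]; linarith
        rw [one_div]
        apply inv_anti₀ (by norm_num)
        linarith
      nlinarith
    · rw [fl_of_pos h20 ht]
      have h12 : deriv (deriv (fl 20)) t ^ 2 ≤ (400 / t ^ 4 * Real.exp (-(20 / t))) ^ 2 :=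
        pow_le_pow_left₀ hd2' hd2 2
      refine h12.trans ?_
      have : (400 / t ^ 4 * Real.exp (-(20 / t))) ^ 2 =
          (20 * Real.exp (-(20 / t)) / t ^ 8) * (8000 * Real.exp (-(20 / t))) := by
        field_simp
        ring
      rw [this]
      calc (20 * Real.exp (-(20 / t)) / t ^ 8) * (8000 * Real.exp (-(20 / t)))
          ≤ (20 * Real.exp (-(20 / t)) / t ^ 8) * t ^ 9 := by gcongr
        _ = 20 * t * Real.exp (-(20 / t)) := by field_simp
    · refine hd2.trans ?_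
      calc 400 / t ^ 4 * Real.exp (-(20 / t)) = (1 / (20 * t ^ 4)) * (8000 * Real.exp (-(20 / t))) := by
            field_simp
            norm_num
        _ ≤ (1 / (20 * t ^ 4)) * t ^ 9 := by gcongr
        _ = t / 20 * t ^ 4 := by field_simp
        _ ≤ t / 20 * 1 := by
            gcongr
            exact pow_le_one₀ ht.le ht1.le
        _ ≤ t / 10 := by linarith
    · rw [hf3] at heq
      linarith
  · rw [dt_eq, dt_mf _ _ (fl_deriv 20)]
    have := infiniteOrder_fl h20 1
    rw [iteratedDeriv_one] at this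
    simp [this]
  · have : (fun t : ℝ => mf (m := m) 1 0 (fl 20) (t, 0)) = fl 20 := by
      funext t; simp [mf]
    rw [this]
    exact infiniteOrder_fl h20
  · have : (fun t : ℝ => mf (m := m) (1 / 2) (1 / 2) (fl 60) (t, 0)) = fl 60 := by
      funext t; simp [mf]
    rw [this]
    exact infiniteOrder_fl h60

end Pool.Agent.Results.MP_a60953_an.InfiniteOrderCounterexample
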